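import Pool.Agent.N329.SD.StmL

/-!
# The assembly
-/

set_option autoImplicit false

namespace Pool.Agent.N329.SD

open Pool.Agent.W868 Pool.Agent.W868.GM Pool.Agent.R597

theorem el_dl (n : ℕ) : el (dl n) = n := Denumerable.encode_ofNat n

theorem dl_el (s : List ℕ) : dl (el s) = s := Denumerable.ofNat_encode s

theorem length_pre (x : ℕ → ℕ) (k : ℕ) : (pre x k).length = k := by simp [pre]

theorem getElem_pre {x : ℕ → ℕ} {k i : ℕ} (h : i < (pre x k).length) : (pre x k)[i] = x i := by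
  simp [pre]

theorem take_pre {x : ℕ → ℕ} {k m : ℕ} (h : k ≤ m) : (pre x m).take k = pre x k := by
  apply List.ext_getElem
  · simp [length_pre, h]
  · intro i h1 h2
    rw [List.getElem_take, getElem_pre, getElem_pre]

theorem eq_of_pre {x y : ℕ → ℕ} {k i : ℕ} (h : pre x k = pre y k) (hi : i < k) : x i = y i := by
  have h1 : (pre x k)[i]'(by rw [length_pre]; exact hi) = (pre y k)[i]'(by rw [length_pre]; exact hi) := by
    simp only [h]
  rwa [getElem_pre, getElem_pre] at h1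

theorem pre_congr {x y : ℕ → ℕ} {k : ℕ} (h : ∀ i < k, x i = y i) : pre x k = pre y k := by
  apply List.ext_getElem
  · simp [length_pre]
  · intro i h1 h2
    rw [getElem_pre, getElem_pre]
    exact h i (by rwa [length_pre] at h1)

theorem ip_fst (x y : ℕ → ℕ) (k : ℕ) : dl (ip x y k).unpair.1 = pre x (k + 1) := by
  rw [ip, Nat.unpair_pair, dl_el]

section

variable (hC : Clo Con)
  (hA : ∀ E Q : Set ℕ, Con E → Con Q → ∀ m α, Run E Q m α →
    ∃ m' α', Run E Q m' α' ∧ Con {n | ∃ k, n = Nat.pair k (m' k)})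
  (hF : ∀ O D E Q : Set ℕ, Con O → Con D → Con E → Con Q →
    (∀ p, Nat.pair p p ∈ O) →
    (∀ p q r, Nat.pair p q ∈ O → Nat.pair q r ∈ O → Nat.pair p r ∈ O) →
    (∀ p q k m, Nat.pair p q ∈ O → Nat.pair p (Nat.pair k m) ∈ D →
      Nat.pair q (Nat.pair k m) ∈ D) →
    ∀ G : ℕ → ℕ, Gn Con O G →
      (∃ m α, Run E Q m α ∧ ∀ k, ∃ l, Nat.pair (G l) (Nat.pair k (m k)) ∈ D) →
      ∃ l, ∀ G' : ℕ → ℕ, Gn Con O G' → (∃ l', G' l' = G l) →
        ∃ m α, Run E Q m α ∧ ∀ k, ∃ l', Nat.pair (G' l') (Nat.pair k (m k)) ∈ D)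
  (h1 : S_EQ1) (h2 : S_EQ2) (h3 : S_CLC)

include hC hA h1 h2 h3 in
theorem sa {B : Set (ℕ → ℕ)} (hB : SigL Con B) {x : ℕ → ℕ} (hx : x ∈ B) :
    ∃ x' ∈ B, Con {i | x' i % 2 = 1} := by
  obtain ⟨R, hR, hRB⟩ := hB
  obtain ⟨y, hy⟩ := (hRB x).1 hx
  obtain ⟨α, hα⟩ := (h2 R).1 x y hy
  obtain ⟨m', α', hr, hc⟩ := hA EE (QQ R) (h1 Con hC).1 ((h1 Con hC).2 R hR) _ _ hα
  obtain ⟨x', y', rfl, hz⟩ := (h2 R).2 m' α' hr
  exact ⟨x', (hRB x').2 ⟨y', hz⟩, (h3 Con hC).2.1 x' y' hc⟩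

include hC hF h1 h2 h3 in
theorem sb {B : Set (ℕ → ℕ)} (hB : SigL Con B) {x : ℕ → ℕ} (hg : Gen Con x) (hx : x ∈ B) :
    ∃ l, ∀ x', Gen Con x' → pre x' l = pre x l → x' ∈ B := by
  obtain ⟨R, hR, hRB⟩ := hB
  obtain ⟨y, hy⟩ := (hRB x).1 hx
  obtain ⟨α, hα⟩ := (h2 R).1 x y hy
  obtain ⟨l, hl⟩ := hF OL {n | ∃ q k m : ℕ, n = Nat.pair q (Nat.pair k m) ∧
    k + 1 ≤ (dl q).length ∧ dl m.unpair.1 = (dl q).take (k + 1)} EE (QQ R) (h3 Con hC).1
    (h3 Con hC).2.2 (h1 Con hC).1 ((h1 Con hC).2 R hR)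
    (by
      intro p
      simp [OL])
    (by
      intro p q r h4 h5
      simp only [OL, Set.mem_ofPred_eq, Nat.unpair_pair] at h4 h5 ⊢
      exact h4.trans h5)
    (by
      rintro p q k m h4 ⟨q', k', m', h5, h6, h7⟩
      simp only [OL, Set.mem_ofPred_eq, Nat.unpair_pair] at h4
      obtain ⟨rfl, h8⟩ := Nat.pair_eq_pair.1 h5
      obtain ⟨rfl, rfl⟩ := Nat.pair_eq_pair.1 h8
      refine ⟨q, k, m, rfl, h6.trans h4.length_le, ?_⟩
      rw [h7]
      obtain ⟨w, hw⟩ := h4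
      rw [← hw, List.take_append_of_le_length h6])
    (Gx x) hg ⟨ip x y, α, hα, fun k => ⟨k + 1, _, _, _, rfl, by
      rw [Gx, dl_el, length_pre], by
      rw [Gx, dl_el, ip_fst, take_pre le_rfl]⟩⟩
  refine ⟨l, fun x' hx' he => ?_⟩
  obtain ⟨m, α', hr, hD⟩ := hl (Gx x') hx' ⟨l, by rw [Gx, Gx, he]⟩
  obtain ⟨x'', y'', rfl, hz⟩ := (h2 R).2 m α' hr
  have h9 : x'' = x' := by
    funext k
    obtain ⟨l', q, k', m', h4, h5, h6⟩ := hD k
    obtain ⟨rfl, h8⟩ := Nat.pair_eq_pair.1 h4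
    obtain ⟨rfl, rfl⟩ := Nat.pair_eq_pair.1 h8
    rw [Gx, dl_el, length_pre] at h5
    rw [Gx, dl_el, ip_fst, take_pre h5] at h6
    exact eq_of_pre h6 (Nat.lt_succ_self k)
  rw [← h9]
  exact (hRB x'').2 ⟨y'', hz⟩

end

/-- The assembly. -/
theorem main (hPR : S_PR) (hCON : S_CON) (hKD : S_KD) (hA' : S_A) (hB' : S_B) (hNAME : S_NAME)
    (hREL : S_REL) (h1 : S_EQ1) (h2 : S_EQ2) (hPRE : S_PRE) (hAND : S_AND) (hGEN : S_GEN)
    (hUPD : S_UPD) (h3 : S_CLC) (A : ℕ → Set ℝ) (hS : ∀ n, Sig12 (A n))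
    (hI : ∀ n, LinearIndependent ℚ (Subtype.val : A n → ℝ)) (hU : ⋃ n, A n = Set.univ) :
    ∀ S : Set ℕ, Con S := by
  classical
  have hC : Clo Con := hCON hPR
  have hA := hA' hPR hC (hKD hPR)
  have hF := hB' hPR hC (hKD hPR)
  have hcov : ∀ r : ℝ, ∃ n, r ∈ A n := fun r => Set.mem_iUnion.1 (hU ▸ Set.mem_univ r)
  intro S0
  by_contra hS0
  by_cases hc : {S : Set ℕ | Con S}.Countable
  · -- the second case
    obtain ⟨x, hx⟩ := hGEN Con hc
    obtain ⟨n, hn⟩ := hcov (rr x 0)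
    have hempty : Con {i : ℕ | (0 : ℕ → ℕ) i % 2 = 1} := by
      have := hC.comp (fun i : ℕ => False) (by
        exact ⟨fun _ => instDecidableFalse, Computable.const _⟩)
      simpa using this
    have hsig := hPRE hNAME Con hC (A n) (hS n) 0 hempty
    obtain ⟨l, hl⟩ := sb hC hF h1 h2 h3 hsig hx hn
    have hu1 := hUPD Con hC x l (x l + 1) hx
    have hu2 := hUPD Con hC x (l + 1) (x (l + 1) + 1) hx
    have hu3 := hUPD Con hC _ (l + 1) (x (l + 1) + 1) hu1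
    refine hREL.2 (A n) (hI n) x l (l + 1) (by omega) hn ?_ ?_ ?_
    · refine hl _ hu1 (pre_congr fun i hi => ?_)
      rw [Function.update_of_ne (by omega)]
    · refine hl _ hu2 (pre_congr fun i hi => ?_)
      rw [Function.update_of_ne (by omega)]
    · refine hl _ hu3 (pre_congr fun i hi => ?_)
      rw [Function.update_of_ne (by omega), Function.update_of_ne (by omega)]
  · -- the first case
    set ind : Set ℕ → ℕ → ℕ := fun S i => if i ∈ S then 1 else 0 with hind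
    have hind1 : ∀ S : Set ℕ, {i | ind S i % 2 = 1} = S := by
      intro S
      ext i
      by_cases h : i ∈ S <;> simp [hind, h]
    have hne : ∃ S S' : Set ℕ, Con S ∧ Con S' ∧ S ≠ S' ∧ ∃ n, rr (ind S0) (ind S) ∈ A n ∧
        rr (ind S0) (ind S') ∈ A n := by
      choose f hf using fun S : Set ℕ => hcov (rr (ind S0) (ind S))
      by_contra hno
      push Not at hno
      refine hc ?_
      refine Set.MapsTo.countable_of_injOn (f := f) (t := Set.univ) (fun _ _ => trivial) ?_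
        Set.countable_univ
      intro S hS S' hS' he
      by_contra hSS
      exact hno S S' hS hS' hSS (f S) (hf S) (he ▸ hf S')
    obtain ⟨S, S', hcS, hcS', hSS, n, hn, hn'⟩ := hne
    have hs1 := hPRE hNAME Con hC (A n) (hS n) (ind S) (by rw [hind1]; exact hcS)
    have hs2 := hPRE hNAME Con hC (A n) (hS n) (ind S') (by rw [hind1]; exact hcS')
    obtain ⟨x', ⟨hx1, hx2⟩, hx3⟩ := sa hC hA h1 h2 h3 (hAND Con hC _ _ hs1 hs2)
      (x := ind S0) ⟨hn, hn'⟩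
    refine hREL.1 (A n) (hI n) (ind S0) x' (ind S) (ind S') hn hn' hx1 hx2 ?_ ?_
    · by_contra hno
      push Not at hno
      apply hS0
      have : {i | x' i % 2 = 1} = S0 := by
        rw [← hind1 S0]
        ext i
        simp only [Set.mem_ofPred_eq, hno]
      rwa [this] at hx3
    · by_contra hno
      push Not at hno
      apply hSS
      rw [← hind1 S, ← hind1 S']
      ext i
      simp only [Set.mem_ofPred_eq, hno]

end Pool.Agent.N329.SD
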