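import Mathlib

/-!
# Σ¹₂ sets of reals covered by independent sets: definitions (Mathlib only)
-/

set_option autoImplicit false

namespace Pool.Agent.N329.SD

/-- The finite sequence of the first `k` values of `x`. -/
def pre (x : ℕ → ℕ) (k : ℕ) : List ℕ := (List.range k).map x

/-- The rational number with the number `m`. -/
noncomputable def rat (m : ℕ) : ℝ :=
  ((m.unpair.1 : ℝ) - m.unpair.2.unpair.1) / (m.unpair.2.unpair.2 + 1)

/-- The element `x` of the Baire space codes the real number `r`: the rationals with the numbers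
`x 0, x 1, ...` converge fast to `r`. -/
def Name (x : ℕ → ℕ) (r : ℝ) : Prop := ∀ i, |rat (x i) - r| ≤ (1 / 2) ^ i

/-- Lightface `Σ¹₂` sets of real numbers. -/
def Sig12 (A : Set ℝ) : Prop :=
  ∃ R : List ℕ → List ℕ → List ℕ → Prop,
    ComputablePred (fun p : List ℕ × List ℕ × List ℕ => R p.1 p.2.1 p.2.2) ∧
    ∀ (r : ℝ) (x : ℕ → ℕ), Name x r →
      (r ∈ A ↔ ∃ y : ℕ → ℕ, ∀ z : ℕ → ℕ, ∃ k, R (pre x k) (pre y k) (pre z k))

/-- The number of a list. -/
def el (s : List ℕ) : ℕ := Encodable.encode s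

/-- The list with the number `n`. -/
def dl (n : ℕ) : List ℕ := Denumerable.ofNat (List ℕ) n

/-- The number of a triple of lists. -/
def cd (s t u : List ℕ) : ℕ := Nat.pair (el s) (Nat.pair (el t) (el u))

/-- The number of a quadruple. -/
def c4 (i m j n : ℕ) : ℕ := Nat.pair (Nat.pair i m) (Nat.pair j n)

/-- A class of sets of natural numbers that contains the computable sets and is closed under
complements, intersections, computable preimages and projections. -/
structure Clo (C : Set ℕ → Prop) : Prop where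
  comp : ∀ P : ℕ → Prop, ComputablePred P → C {n | P n}
  compl : ∀ S, C S → C Sᶜ
  inter : ∀ S T, C S → C T → C (S ∩ T)
  pre : ∀ (S : Set ℕ) (g : ℕ → ℕ), C S → Computable g → C {n | g n ∈ S}
  ex : ∀ S : Set ℕ, C S → C {n | ∃ m, Nat.pair n m ∈ S}

/-- `Σ¹₂` sets in the Baire space with a matrix in the class `C`. -/
def SigL (C : Set ℕ → Prop) (B : Set (ℕ → ℕ)) : Prop :=
  ∃ R : Set ℕ, C R ∧ ∀ x, x ∈ B ↔
    ∃ y : ℕ → ℕ, ∀ z : ℕ → ℕ, ∃ k, cd (pre x k) (pre y k) (pre z k) ∈ R

/-- A run of the system `E`, `Q`. -/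
def Run (E Q : Set ℕ) (m : ℕ → ℕ) (α : ℕ → Ordinal.{0}) : Prop :=
  ∀ i j, c4 i (m i) j (m j) ∈ E ∧ (c4 i (m i) j (m j) ∈ Q → α j < α i)

/-- Coherence of the numbers of initial segments. -/
def PE (i m j n : ℕ) : Prop :=
  (dl m.unpair.1).length = i + 1 ∧ (dl m.unpair.2).length = i + 1 ∧
  (dl n.unpair.1).length = j + 1 ∧ (dl n.unpair.2).length = j + 1 ∧
  (i ≤ j → dl m.unpair.1 <+: dl n.unpair.1 ∧ dl m.unpair.2 <+: dl n.unpair.2)

/-- The sequence with the number `j` is a one point extension (at the head, sequences are read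
backwards) of the sequence with the number `i`, and it is not yet excluded by `R`. -/
def PQ (R : Set ℕ) (i j n : ℕ) : Prop :=
  (∃ a, dl j = a :: dl i) ∧ ∀ k ≤ (dl j).length,
    cd ((dl n.unpair.1).take k) ((dl n.unpair.2).take k) ((dl j).reverse.take k) ∉ R

/-- The first part of the system. -/
def EE : Set ℕ := {n | PE n.unpair.1.unpair.1 n.unpair.1.unpair.2 n.unpair.2.unpair.1
  n.unpair.2.unpair.2}

/-- The second part of the system. -/
def QQ (R : Set ℕ) : Set ℕ := {n | PQ R n.unpair.1.unpair.1 n.unpair.2.unpair.1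
  n.unpair.2.unpair.2}

/-- The numbers of the initial segments of a pair of sequences. -/
def ip (x y : ℕ → ℕ) (k : ℕ) : ℕ := Nat.pair (el (pre x (k + 1))) (el (pre y (k + 1)))

/-- A decreasing sequence of conditions that meets all dense sets in the class `C`. Conditions are
numbers, `Nat.pair p q ∈ O` says that `q` is stronger than `p`. -/
def Gn (C : Set ℕ → Prop) (O : Set ℕ) (G : ℕ → ℕ) : Prop :=
  (∀ k, Nat.pair (G k) (G (k + 1)) ∈ O) ∧
  ∀ Δ : Set ℕ, C Δ → (∀ p, ∃ q ∈ Δ, Nat.pair p q ∈ O) → ∃ l, G l ∈ Δ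

/-- The order of the conditions that are numbers of lists. -/
def OL : Set ℕ := {n | dl n.unpair.1 <+: dl n.unpair.2}

/-- The sequence of the conditions given by a sequence of natural numbers. -/
def Gx (x : ℕ → ℕ) (k : ℕ) : ℕ := el (pre x k)

/-- Generic elements of the Baire space. -/
def Gen (C : Set ℕ → Prop) (x : ℕ → ℕ) : Prop := Gn C OL (Gx x)

/-- The numerators. -/
def num (x y : ℕ → ℕ) : ℕ → ℕ
  | 0 => 0
  | i + 1 => 8 * num x y i + (2 * (x i % 2) + y i % 2)

/-- The real number given by two sequences. -/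
noncomputable def rr (x y : ℕ → ℕ) : ℝ :=
  ∑' i : ℕ, ((2 * (x i % 2) + y i % 2 : ℕ) : ℝ) / 8 ^ (i + 1)

/-- The name of the real number given by two sequences. -/
def nm (x y : ℕ → ℕ) (i : ℕ) : ℕ := Nat.pair (num x y i) (Nat.pair 0 (8 ^ i - 1))

end Pool.Agent.N329.SD
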