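import Pool.Agent.N329.SD.StmL

/-!
# Elements of the Baire space are constructible
-/

set_option autoImplicit false

namespace Pool.Agent.N329.SD

open Pool.Agent.W868 Pool.Agent.W868.GM Pool.Agent.R597
open ZFSet (pair)

/-- The set of pairs (in the sense of set theory) of an element `x` of the Baire space. -/
noncomputable def gs (x : ℕ → ℕ) : ZFSet.{0} :=
  ZFSet.sep (fun p => ∃ n : ℕ, p = pair (nat n) (nat (x n)))
    (ZFSet.prod ZFSet.omega ZFSet.omega)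

theorem mem_gp {f : ℕ →. ℕ} {a b : ℕ} : pair (nat a) (nat b) ∈ gp f ↔ b ∈ f a := by
  rw [gp, ZFSet.mem_sep, ZFSet.pair_mem_prod]
  constructor
  · rintro ⟨-, a', b', h, h1⟩
    obtain ⟨h2, h3⟩ := ZFSet.pair_inj.1 h1
    rw [nat_injective h2, nat_injective h3]
    exact h
  · intro h
    exact ⟨⟨nat_mem_omega a, nat_mem_omega b⟩, a, b, h, rfl⟩

theorem mem_zs {S : Set ℕ} {n : ℕ} : nat n ∈ zs S ↔ n ∈ S := by
  rw [zs, ZFSet.mem_sep]
  constructor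
  · rintro ⟨-, m, hm, h⟩
    rwa [nat_injective h]
  · exact fun h => ⟨nat_mem_omega n, n, h, rfl⟩

theorem gs_mem (h : S_PR) (hc : ∀ S : Set ℕ, Con S) (x : ℕ → ℕ) : gs x ∈ Lcls := by
  have hM := isZFC_L.1.toIsZF
  have hB := hM.base
  have h1 := h Lcls hM _ Nat.Partrec.left
  have h2 := h Lcls hM _ Nat.Partrec.right
  have h3 : zs {n | ∃ k, n = Nat.pair k (x k)} ∈ Lcls := hc _
  have h4 : gs x = ZFSet.sep (fun p => ∃ z ∈ zs {n | ∃ k, n = Nat.pair k (x k)},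
      pair z (fs p) ∈ gp ((fun n => n.unpair.1 : ℕ → ℕ) : ℕ →. ℕ) ∧ pair z (sn p) ∈ gp ((fun n => n.unpair.2 : ℕ → ℕ) : ℕ →. ℕ))
      (ZFSet.prod ZFSet.omega ZFSet.omega) := by
    ext p
    rw [gs, ZFSet.mem_sep, ZFSet.mem_sep]
    refine and_congr_right fun hp => ?_
    obtain ⟨a, ha, b, hb, rfl⟩ := ZFSet.mem_prod.1 hp
    obtain ⟨a, rfl⟩ := mem_omega_iff.1 ha
    obtain ⟨b, rfl⟩ := mem_omega_iff.1 hb
    rw [fs_pair, sn_pair]
    constructor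
    · rintro ⟨n, h5⟩
      obtain ⟨h6, h7⟩ := ZFSet.pair_inj.1 h5
      have h6 := nat_injective h6
      have h7 := nat_injective h7
      subst h6 h7
      refine ⟨nat (Nat.pair a (x a)), mem_zs.2 ⟨a, rfl⟩, mem_gp.2 ?_, mem_gp.2 ?_⟩ <;> simp
    · rintro ⟨z, hz, h5, h6⟩
      obtain ⟨k, hk, rfl⟩ := (ZFSet.mem_sep.1 hz).2
      obtain ⟨k, rfl⟩ := hk
      rw [mem_gp] at h5 h6
      simp at h5 h6
      exact ⟨k, by rw [h5, h6]⟩
  rw [h4]
  refine hM.sep_mem (Q := fun p => ∃ z ∈ zs {n | ∃ k, n = Nat.pair k (x k)},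
      pair z (fs p) ∈ gp ((fun n => n.unpair.1 : ℕ → ℕ) : ℕ →. ℕ) ∧ pair z (sn p) ∈ gp ((fun n => n.unpair.2 : ℕ → ℕ) : ℕ →. ℕ)) ?_
    (hM.prod_mem hM.infinity hM.infinity)
  apply hB.bex (DfnF.const h3)
  exact (Dfn.mem (hB.pair' (DfnF.proj 0) (hM.fs' (DfnF.proj 1))) (DfnF.const h1)).and
    (Dfn.mem (hB.pair' (DfnF.proj 0) (hM.sn' (DfnF.proj 1))) (DfnF.const h2))

end Pool.Agent.N329.SD
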