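import Pool.Agent.N329.SD.Defs

/-!
# Statements of the parts that only need Mathlib
-/

set_option autoImplicit false

namespace Pool.Agent.N329.SD

/-- SD/NAME -/
def S_NAME : Prop := ∀ x y : ℕ → ℕ, Name (nm x y) (rr x y)

/-- SD/REL -/
def S_REL : Prop :=
  (∀ A : Set ℝ, LinearIndependent ℚ (Subtype.val : A → ℝ) → ∀ x x' y y' : ℕ → ℕ,
    rr x y ∈ A → rr x y' ∈ A → rr x' y ∈ A → rr x' y' ∈ A →
    (∃ i, x i % 2 ≠ x' i % 2) → (∃ i, y i % 2 ≠ y' i % 2) → False) ∧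
  (∀ A : Set ℝ, LinearIndependent ℚ (Subtype.val : A → ℝ) → ∀ (x : ℕ → ℕ) (i j : ℕ), i ≠ j →
    rr x 0 ∈ A → rr (Function.update x i (x i + 1)) 0 ∈ A →
    rr (Function.update x j (x j + 1)) 0 ∈ A →
    rr (Function.update (Function.update x i (x i + 1)) j (x j + 1)) 0 ∈ A → False)

/-- SD/EQ1: the system is in the class. -/
def S_EQ1 : Prop := ∀ C : Set ℕ → Prop, Clo C → C EE ∧ ∀ R, C R → C (QQ R)

/-- SD/EQ2: soundness and completeness of the system. -/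
def S_EQ2 : Prop := ∀ R : Set ℕ,
  (∀ x y : ℕ → ℕ, (∀ z : ℕ → ℕ, ∃ k, cd (pre x k) (pre y k) (pre z k) ∈ R) →
    ∃ α : ℕ → Ordinal.{0}, Run EE (QQ R) (ip x y) α) ∧
  (∀ (m : ℕ → ℕ) (α : ℕ → Ordinal.{0}), Run EE (QQ R) m α →
    ∃ x y : ℕ → ℕ, m = ip x y ∧ ∀ z : ℕ → ℕ, ∃ k, cd (pre x k) (pre y k) (pre z k) ∈ R)

/-- SD/PRE -/
def S_PRE : Prop := S_NAME → ∀ C : Set ℕ → Prop, Clo C → ∀ A : Set ℝ, Sig12 A → ∀ y : ℕ → ℕ,
  C {i | y i % 2 = 1} → SigL C {x | rr x y ∈ A}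

/-- SD/AND -/
def S_AND : Prop := ∀ C : Set ℕ → Prop, Clo C → ∀ A B, SigL C A → SigL C B → SigL C (A ∩ B)

/-- SD/GEN: existence of generic sequences. -/
def S_GEN : Prop := ∀ C : Set ℕ → Prop, {S | C S}.Countable → ∃ x, Gen C x

/-- SD/UPD: finite changes of generic sequences. -/
def S_UPD : Prop := ∀ C : Set ℕ → Prop, Clo C → ∀ (x : ℕ → ℕ) (j v : ℕ), Gen C x →
  Gen C (Function.update x j v)

/-- SD/CLC: the computable facts needed for the transfer. -/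
def S_CLC : Prop := ∀ C : Set ℕ → Prop, Clo C → C OL ∧
  (∀ x y : ℕ → ℕ, C {n | ∃ k, n = Nat.pair k (ip x y k)} → C {i | x i % 2 = 1}) ∧
  C {n | ∃ q k m : ℕ, n = Nat.pair q (Nat.pair k m) ∧ k + 1 ≤ (dl q).length ∧
    dl m.unpair.1 = (dl q).take (k + 1)}

end Pool.Agent.N329.SD
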