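import Pool.Agent.N329.SD.Stm
import Pool.Agent.R597.Univ

/-!
# Statements of the parts about the constructible universe
-/

set_option autoImplicit false

namespace Pool.Agent.N329.SD

open Pool.Agent.W868 Pool.Agent.W868.GM Pool.Agent.R597
open ZFSet (pair)

/-- A set of natural numbers as a set of von Neumann numbers. -/
noncomputable def zs (S : Set ℕ) : ZFSet.{0} :=
  ZFSet.sep (fun x => ∃ n ∈ S, x = nat n) ZFSet.omega

/-- The set of natural numbers `S` is constructible. -/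
def Con (S : Set ℕ) : Prop := zs S ∈ Lcls

/-- The graph of a partial function. -/
noncomputable def gp (f : ℕ →. ℕ) : ZFSet.{0} :=
  ZFSet.sep (fun p => ∃ a b : ℕ, b ∈ f a ∧ p = pair (nat a) (nat b))
    (ZFSet.prod ZFSet.omega ZFSet.omega)

/-- The label with the number `k`. -/
noncomputable def lab (m : ℕ → ℕ) (α : ℕ → Ordinal.{0}) (k : ℕ) : ZFSet.{0} :=
  pair (nat (m k)) (α k).toZFSet

/-- The set of the labels. -/
noncomputable def Wl (κ : Ordinal.{0}) : ZFSet.{0} := ZFSet.prod ZFSet.omega κ.toZFSet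

/-- The pairs of a condition and a finite partial run of the system that fits to the condition. -/
noncomputable def KD (E Q D : Set ℕ) (κ : Ordinal.{0}) : ZFSet.{0} :=
  ZFSet.sep (fun p => ∃ (q n : ℕ) (m : ℕ → ℕ) (α : ℕ → Ordinal.{0}),
    p = pair (nat q) (seq (lab m α) n) ∧
    (∀ i < n, ∀ j < n, c4 i (m i) j (m j) ∈ E ∧ (c4 i (m i) j (m j) ∈ Q → α j < α i)) ∧
    ∀ k < n, Nat.pair q (Nat.pair k (m k)) ∈ D) (ZFSet.prod ZFSet.omega (Sq (Wl κ)))

/-- SD/PR: graphs of partial recursive functions are in every model. -/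
def S_PR : Prop := ∀ M : Set ZFSet.{0}, IsZF M → ∀ f : ℕ →. ℕ, Nat.Partrec f → gp f ∈ M

/-- SD/CON -/
def S_CON : Prop := S_PR → Clo Con

/-- SD/KD -/
def S_KD : Prop := S_PR → ∀ E Q D : Set ℕ, Con E → Con Q → Con D → ∀ κ : Ordinal.{0},
  KD E Q D κ ∈ Lcls

/-- SD/A: Shoenfield's basis theorem for systems. -/
def S_A : Prop := S_PR → Clo Con →
  (∀ E Q D : Set ℕ, Con E → Con Q → Con D → ∀ κ : Ordinal.{0}, KD E Q D κ ∈ Lcls) →
  ∀ E Q : Set ℕ, Con E → Con Q → ∀ m α, Run E Q m α →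
  ∃ m' α', Run E Q m' α' ∧ Con {n | ∃ k, n = Nat.pair k (m' k)}

/-- SD/B: the forcing theorem for systems. -/
def S_B : Prop := S_PR → Clo Con →
  (∀ E Q D : Set ℕ, Con E → Con Q → Con D → ∀ κ : Ordinal.{0}, KD E Q D κ ∈ Lcls) →
  ∀ O D E Q : Set ℕ, Con O → Con D → Con E → Con Q →
  (∀ p, Nat.pair p p ∈ O) →
  (∀ p q r, Nat.pair p q ∈ O → Nat.pair q r ∈ O → Nat.pair p r ∈ O) →
  (∀ p q k m, Nat.pair p q ∈ O → Nat.pair p (Nat.pair k m) ∈ D →
    Nat.pair q (Nat.pair k m) ∈ D) →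
  ∀ G : ℕ → ℕ, Gn Con O G →
    (∃ m α, Run E Q m α ∧ ∀ k, ∃ l, Nat.pair (G l) (Nat.pair k (m k)) ∈ D) →
    ∃ l, ∀ G' : ℕ → ℕ, Gn Con O G' → (∃ l', G' l' = G l) →
      ∃ m α, Run E Q m α ∧ ∀ k, ∃ l', Nat.pair (G' l') (Nat.pair k (m k)) ∈ D

end Pool.Agent.N329.SD
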